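import Pool.Agent.W335.WAB.BaseJ
import Pool.Agent.W191.LL.Avg0
import Pool.Agent.W688.LL.Osc
import Pool.Agent.W792.WA.Stm2

/-!
Project WA (helper792), part WA-JSTEP: the averaged imaginary part is almost preserved by adding an
oscillating level.
-/

set_option autoImplicit false

namespace Pool.Agent.W577.WAJ

open MeasureTheory Filter Pool.Agent.W792.LL Pool.Agent.W792.WA Pool.Agent.W335.WAB.BaseJ
open scoped Topology

theorem vol_eq (d : ℕ) :
    (volume : Measure (UnitAddTorus (Fin d))) = Pool.Agent.W191.LL.mu d := by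
  rw [volume_pi]
  unfold Pool.Agent.W191.LL.mu
  congr 1
  funext i
  rw [AddCircle.volume_eq_smul_haarAddCircle]
  simp

theorem mfc_zero {d : ℕ} (f : UnitAddTorus (Fin d) → ℂ) :
    UnitAddTorus.mFourierCoeff f 0 = ∫ t, f t := by
  rw [Pool.Agent.W191.LL.mfc_eq, vol_eq]
  congr 1
  funext t
  rw [neg_zero, UnitAddTorus.mFourier_zero]
  simp

theorem Hf_comp_cont {X : Type} [TopologicalSpace X] {ψ : C(UnitAddCircle, ℝ)} (hψ : IsSemi ψ)
    {r : ℝ} (hr : 0 < r) (ρ : Measure ℝ) [IsProbabilityMeasure ρ] (h : X → ℂ) (hc : Continuous h)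
    (hi : ∀ x, (h x).im < 0) : Continuous fun x => Hf ψ r ρ (h x) := by
  rw [continuous_iff_continuousAt]
  intro x₀
  rw [ContinuousAt, tendsto_iff_norm_sub_tendsto_zero]
  refine squeeze_zero (fun _ => norm_nonneg _)
    (fun x => Hf_holder hψ hr (hi x) (hi x₀) ρ) ?_
  have h1 : Continuous fun x => 2 / r * Real.sqrt (2 / r * ‖h x - h x₀‖) := by fun_prop
  have h2 := h1.tendsto x₀
  simpa using h2

section

variable {ψ : C(UnitAddCircle, ℝ)} (hψ : IsSemi ψ) {d : ℕ} (K : C(UnitAddTorus (Fin d), ℝ))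
  {l l' : ℝ} (hl' : 0 < l') (ρ : Measure ℝ) [IsProbabilityMeasure ρ] {z : ℂ} (hz : 0 < z.im)

include hz in
theorem im_neg (t : ℝ) : ((t : ℂ) - z).im < 0 := by
  simp only [Complex.sub_im, Complex.ofReal_im, zero_sub]
  linarith

include hz in
theorem jf_eq1 (K' : C(UnitAddTorus (Fin d), ℝ)) :
    jf ((lev ψ l').conv ρ) K' z = ∫ k, (Hf ψ l' ρ ((K' k : ℂ) - z)).im := by
  unfold jf
  congr 1
  funext k
  rw [← conv_eq ψ l' ρ (im_neg hz (K' k))]
  congr 2
  funext a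
  congr 1
  ring

/-- The function on the product. -/
noncomputable def G (ψ : C(UnitAddCircle, ℝ)) {d : ℕ} (K : C(UnitAddTorus (Fin d), ℝ))
    (l l' : ℝ) (ρ : Measure ℝ) (z : ℂ) (p : UnitAddTorus (Fin d) × UnitAddCircle) : ℂ :=
  Hf ψ l' ρ (((K p.1 + l * ψ p.2 : ℝ) : ℂ) - z)

include hψ hl' hz in
theorem G_cont : Continuous (G ψ K l l' ρ z) := by
  unfold G
  refine Hf_comp_cont hψ hl' ρ _ ?_ fun p => im_neg hz _
  have h1 : Continuous fun p : UnitAddTorus (Fin d) × UnitAddCircle => (K p.1 + l * ψ p.2 : ℝ) :=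
    (K.continuous.comp continuous_fst).add (continuous_const.mul (ψ.continuous.comp continuous_snd))
  exact (Complex.continuous_ofReal.comp h1).sub continuous_const

include hψ hl' hz in
theorem G_bound (p : UnitAddTorus (Fin d) × UnitAddCircle) : ‖G ψ K l l' ρ z p‖ ≤ 2 / l' :=
  Hf_bound hψ hl' (im_neg hz _) ρ

include hψ hl' hz in
theorem G_sub {z' : ℂ} (hz' : 0 < z'.im) (p : UnitAddTorus (Fin d) × UnitAddCircle) :
    ‖G ψ K l l' ρ z p - G ψ K l l' ρ z' p‖ ≤ 2 / l' * Real.sqrt (2 / l' * ‖z - z'‖) := by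
  have h := Hf_holder hψ hl' (im_neg hz (K p.1 + l * ψ p.2)) (im_neg hz' (K p.1 + l * ψ p.2)) ρ
  have e : (((K p.1 + l * ψ p.2 : ℝ) : ℂ) - z) - (((K p.1 + l * ψ p.2 : ℝ) : ℂ) - z') =
      -(z - z') := by ring
  rw [e, norm_neg] at h
  exact h

/-- The average over the circle. -/
noncomputable def Ga (ψ : C(UnitAddCircle, ℝ)) {d : ℕ} (K : C(UnitAddTorus (Fin d), ℝ))
    (l l' : ℝ) (ρ : Measure ℝ) (z : ℂ) (k : UnitAddTorus (Fin d)) : ℂ :=
  ∫ φ in Set.Ioc (0 : ℝ) 1, G ψ K l l' ρ z (k, (φ : UnitAddCircle))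

include hψ hl' hz in
theorem Gk_int (k : UnitAddTorus (Fin d)) :
    Integrable (fun φ : ℝ => G ψ K l l' ρ z (k, (φ : UnitAddCircle)))
      (volume.restrict (Set.Ioc (0 : ℝ) 1)) := by
  refine Integrable.of_bound ?_ (2 / l') (ae_of_all _ fun φ => G_bound hψ K hl' ρ hz _)
  exact ((G_cont hψ K hl' ρ hz).comp (continuous_const.prodMk
    (AddCircle.continuous_mk' (1 : ℝ)))).aestronglyMeasurable

include hψ hl' hz in
theorem Ga_bound (k : UnitAddTorus (Fin d)) : ‖Ga ψ K l l' ρ z k‖ ≤ 2 / l' := by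
  unfold Ga
  have := norm_integral_le_of_norm_le_const (μ := volume.restrict (Set.Ioc (0 : ℝ) 1))
    (ae_of_all _ fun φ : ℝ => G_bound (l := l) hψ K hl' ρ hz (k, (φ : UnitAddCircle)))
  simpa using this

include hψ hl' hz in
theorem Ga_sub {z' : ℂ} (hz' : 0 < z'.im) (k : UnitAddTorus (Fin d)) :
    ‖Ga ψ K l l' ρ z k - Ga ψ K l l' ρ z' k‖ ≤ 2 / l' * Real.sqrt (2 / l' * ‖z - z'‖) := by
  unfold Ga
  rw [← integral_sub (Gk_int hψ K hl' ρ hz k) (Gk_int hψ K hl' ρ hz' k)]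
  have := norm_integral_le_of_norm_le_const (μ := volume.restrict (Set.Ioc (0 : ℝ) 1))
    (ae_of_all _ fun φ : ℝ => G_sub (l := l) hψ K hl' ρ hz hz' (k, (φ : UnitAddCircle)))
  simpa using this

include hψ hl' hz in
theorem Ga_int : Integrable (Ga ψ K l l' ρ z) := by
  refine Integrable.of_bound ?_ (2 / l') (ae_of_all _ fun k => Ga_bound hψ K hl' ρ hz k)
  have h1 : Continuous fun p : UnitAddTorus (Fin d) × ℝ =>
      G ψ K l l' ρ z (p.1, (p.2 : UnitAddCircle)) :=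
    (G_cont hψ K hl' ρ hz).comp (continuous_fst.prodMk
      ((AddCircle.continuous_mk' (1 : ℝ)).comp continuous_snd))
  exact (h1.stronglyMeasurable.integral_prod_right').aestronglyMeasurable

theorem conv_prob (μ ν : Measure ℝ) [IsProbabilityMeasure μ] [IsProbabilityMeasure ν] :
    IsProbabilityMeasure (μ.conv ν) := by
  unfold Measure.conv
  exact Measure.isProbabilityMeasure_map (by fun_prop)

include hz in
theorem jf_eq2 : jf ((lev ψ l).conv ((lev ψ l').conv ρ)) K z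
    = ∫ k, (Ga ψ K l l' ρ z k).im := by
  have : IsProbabilityMeasure ((lev ψ l').conv ρ) := conv_prob _ _
  rw [jf_eq1 (l' := l) ((lev ψ l').conv ρ) hz K]
  congr 1
  funext k
  congr 1
  have hy := im_neg hz (K k)
  unfold Hf Ga
  rw [integral_integral_swap]
  · congr 1
    funext φ
    unfold G
    rw [← conv_eq ψ l' ρ (im_neg hz _)]
    congr 1
    funext a
    congr 1
    push_cast
    ring
  · refine Integrable.of_bound ?_ (1 / (-((K k : ℂ) - z).im)) (ae_of_all _ fun p => ?_)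
    · have h1 : Continuous fun p : ℝ × ℝ => (l * ψ (p.2 : UnitAddCircle) + p.1 : ℝ) :=
        (continuous_const.mul ((cont_psi ψ).comp continuous_snd)).add continuous_fst
      exact ((cont_inv hy).comp h1).aestronglyMeasurable
    · exact (inv_bound hy _).2

/-- The oscillating term. -/
noncomputable def Gm (ψ : C(UnitAddCircle, ℝ)) {d : ℕ} (K : C(UnitAddTorus (Fin d), ℝ))
    (l l' : ℝ) (ρ : Measure ℝ) (z : ℂ) (M : ℕ) (k : UnitAddTorus (Fin d)) : ℂ :=
  G ψ K l l' ρ z (k, ((M * lap d k / (2 * Real.pi) : ℝ) : UnitAddCircle))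

include hz in
theorem jf_eq3 (M : ℕ) : jf ((lev ψ l').conv ρ) (addL ψ K l M) z
    = ∫ k, (Gm ψ K l l' ρ z M k).im := by
  rw [jf_eq1 ρ hz]
  rfl

include hψ hl' hz in
theorem Gm_int (M : ℕ) : Integrable (Gm ψ K l l' ρ z M) := by
  refine Integrable.of_bound ?_ (2 / l') (ae_of_all _ fun k => G_bound hψ K hl' ρ hz _)
  have h : Continuous fun k : UnitAddTorus (Fin d) =>
      ((M * lap d k / (2 * Real.pi) : ℝ) : UnitAddCircle) :=
    (AddCircle.continuous_mk' (1 : ℝ)).comp (by fun_prop)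
  exact ((G_cont hψ K hl' ρ hz).comp (continuous_id.prodMk h)).aestronglyMeasurable

include hψ hl' hz in
theorem jf_diff (M : ℕ) : jf ((lev ψ l').conv ρ) (addL ψ K l M) z
    - jf ((lev ψ l).conv ((lev ψ l').conv ρ)) K z
    = (∫ k, (Gm ψ K l l' ρ z M k - Ga ψ K l l' ρ z k)).im := by
  rw [jf_eq3 K ρ hz, jf_eq2 K ρ hz, integral_sub (Gm_int hψ K hl' ρ hz M) (Ga_int hψ K hl' ρ hz),
    Complex.sub_im]
  congr 1
  · exact integral_im (Gm_int hψ K hl' ρ hz M)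
  · exact integral_im (Ga_int hψ K hl' ρ hz)

include hψ hl' hz in
theorem diff_sub {z' : ℂ} (hz' : 0 < z'.im) (M : ℕ) :
    ‖∫ k, (Gm ψ K l l' ρ z M k - Ga ψ K l l' ρ z k)‖ ≤
      ‖∫ k, (Gm ψ K l l' ρ z' M k - Ga ψ K l l' ρ z' k)‖ +
        2 * (2 / l' * Real.sqrt (2 / l' * ‖z - z'‖)) := by
  have i1 : Integrable (fun k => Gm ψ K l l' ρ z M k - Ga ψ K l l' ρ z k) :=
    (Gm_int (l := l) hψ K hl' ρ hz M).sub (Ga_int (l := l) hψ K hl' ρ hz)
  have i2 : Integrable (fun k => Gm ψ K l l' ρ z' M k - Ga ψ K l l' ρ z' k) :=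
    (Gm_int (l := l) hψ K hl' ρ hz' M).sub (Ga_int (l := l) hψ K hl' ρ hz')
  have h1 : ‖(∫ k, (Gm ψ K l l' ρ z M k - Ga ψ K l l' ρ z k)) -
      ∫ k, (Gm ψ K l l' ρ z' M k - Ga ψ K l l' ρ z' k)‖ ≤
        2 * (2 / l' * Real.sqrt (2 / l' * ‖z - z'‖)) := by
    rw [← integral_sub i1 i2]
    have := norm_integral_le_of_norm_le_const (μ := (volume : Measure (UnitAddTorus (Fin d))))
      (f := fun k => (Gm ψ K l l' ρ z M k - Ga ψ K l l' ρ z k) -
        (Gm ψ K l l' ρ z' M k - Ga ψ K l l' ρ z' k))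
      (C := 2 * (2 / l' * Real.sqrt (2 / l' * ‖z - z'‖)))
      (ae_of_all _ fun k => by
        have a1 := G_sub (l := l) hψ K hl' ρ hz hz'
          (k, ((M * lap d k / (2 * Real.pi) : ℝ) : UnitAddCircle))
        have a2 := Ga_sub (l := l) hψ K hl' ρ hz hz' k
        have e : (Gm ψ K l l' ρ z M k - Ga ψ K l l' ρ z k) -
          (Gm ψ K l l' ρ z' M k - Ga ψ K l l' ρ z' k) =
          (Gm ψ K l l' ρ z M k - Gm ψ K l l' ρ z' M k) -
            (Ga ψ K l l' ρ z k - Ga ψ K l l' ρ z' k) := by ring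
        rw [e]
        refine (norm_sub_le _ _).trans ?_
        have a3 : ‖Gm ψ K l l' ρ z M k - Gm ψ K l l' ρ z' M k‖ ≤
          2 / l' * Real.sqrt (2 / l' * ‖z - z'‖) := a1
        linarith)
    simpa using this
  have h2 := norm_sub_norm_le (∫ k, (Gm ψ K l l' ρ z M k - Ga ψ K l l' ρ z k))
    (∫ k, (Gm ψ K l l' ρ z' M k - Ga ψ K l l' ρ z' k))
  linarith

end

theorem main : S_JSTEP := by
  intro ψ hψ d K l l' C ρ _ hd hl hl' _ e he
  have hAvg : S_AVG0 := Pool.Agent.W191.LL.main Pool.Agent.W688.LL.Osc.main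
  obtain ⟨θ, hθ⟩ : ∃ θ : ℝ, θ = l' / 2 * (e * l' / 8) ^ 2 := ⟨_, rfl⟩
  have hθ0 : 0 < θ := by rw [hθ]; positivity
  have htb : TotallyBounded (Zs d) := by
    refine (isCompact_closedBall (0 : ℂ) (4 * d + 1)).totallyBounded.subset ?_
    rintro z ⟨h1, h2, h3, h4⟩
    rw [mem_closedBall_zero_iff]
    refine (Complex.norm_le_abs_re_add_abs_im z).trans ?_
    rw [abs_of_nonneg h1, abs_of_pos h3]
    exact add_le_add h2 h4
  obtain ⟨t, hts, htf, htc⟩ := Metric.finite_approx_of_totallyBounded htb θ hθ0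
  have hev : ∀ᶠ M : ℕ in atTop, ∀ z' ∈ t,
      ‖∫ k, (Gm ψ K l l' ρ z' M k - Ga ψ K l l' ρ z' k)‖ ≤ e / 2 := by
    rw [Filter.eventually_all_finite htf]
    intro z' hz't
    have hz' : 0 < z'.im := (hts hz't).2.2.1
    obtain ⟨M₀, hM₀⟩ := hAvg d hd ⟨G ψ K l l' ρ z', G_cont hψ K hl' ρ hz'⟩ (e / 2) (by linarith)
    filter_upwards [Filter.eventually_ge_atTop M₀] with M hM
    have h := hM₀ M hM 0
    rw [mfc_zero] at h
    exact h
  obtain ⟨M₀, hM₀⟩ := Filter.eventually_atTop.mp hev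
  refine ⟨M₀, fun M hM z hzZ => ?_⟩
  have hz : 0 < z.im := hzZ.2.2.1
  have h1 := htc hzZ
  rw [Set.mem_iUnion₂] at h1
  obtain ⟨z', hz't, hzz'⟩ := h1
  have hz' : 0 < z'.im := (hts hz't).2.2.1
  rw [Metric.mem_ball, dist_eq_norm] at hzz'
  have h2 := hM₀ M hM z' hz't
  have h3 := diff_sub (l := l) hψ K hl' ρ hz hz' M
  have h4 : Real.sqrt (2 / l' * ‖z - z'‖) ≤ e * l' / 8 := by
    apply Real.sqrt_le_iff.mpr
    refine ⟨by positivity, ?_⟩
    calc 2 / l' * ‖z - z'‖ ≤ 2 / l' * θ := by gcongr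
      _ = (e * l' / 8) ^ 2 := by rw [hθ]; field_simp
  have h5 : 2 * (2 / l' * Real.sqrt (2 / l' * ‖z - z'‖)) ≤ e / 2 := by
    calc 2 * (2 / l' * Real.sqrt (2 / l' * ‖z - z'‖)) ≤ 2 * (2 / l' * (e * l' / 8)) := by gcongr
      _ = e / 2 := by field_simp; ring
  have h6 := jf_diff (l := l) hψ K hl' ρ hz M
  have h7 := Complex.abs_im_le_norm (∫ k, (Gm ψ K l l' ρ z M k - Ga ψ K l l' ρ z k))
  have h8 := neg_abs_le (∫ k, (Gm ψ K l l' ρ z M k - Ga ψ K l l' ρ z k)).im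
  linarith

end Pool.Agent.W577.WAJ

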